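import Pool.Agent.H81.PB.Lin

/-!
# The dimension of the invariants
-/

set_option autoImplicit false
set_option linter.unusedSectionVars false

namespace Pool.Agent.H81.PB

open Module Pool.Agent.X156.SD

variable {G : Type} [Group G] [Finite G] (M H : Subgroup G) [hMn : M.Normal]
  {F : Type} [Field F] [CharZero F] {V : Type} [AddCommGroup V] [Module F V]
  (ρ : G →* (V →ₗ[F] V))

theorem pr_mem [Fintype M] (χ : M →* ℤˣ) {v : V} (hv : v ∈ fixS ρ H) :
    pr M ρ χ v ∈ Wc M H ρ χ := by
  refine ⟨fun m => pr_eig M ρ χ m v, fun h hh => ?_⟩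
  rw [pr_act, hh.2, hv h hh.1]

/-- the components of an invariant vector -/
noncomputable def comp [Fintype M] :
    fixS ρ H →ₗ[F] (∀ o : Quotient (orb M H), Wc M H ρ o.out) :=
  LinearMap.pi fun o => ((pr M ρ o.out).comp (fixS ρ H).subtype).codRestrict _
    fun v => pr_mem M H ρ o.out v.2

theorem comp_apply [Fintype M] (v : fixS ρ H) (o : Quotient (orb M H)) :
    ((comp M H ρ v o : Wc M H ρ o.out) : V) = pr M ρ o.out v := rfl

theorem comp_inj [Fintype M] (hsq : ∀ m ∈ M, m * m ∈ H) :
    Function.Injective (comp M H ρ) := by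
  classical
  have : Fintype (M →* ℤˣ) := Fintype.ofFinite _
  rw [injective_iff_map_eq_zero]
  intro v hv
  obtain ⟨c, hc, h1⟩ := complete M H ρ hsq
  have h2 := h1 v v.2
  have h3 : ∀ χ : M →* ℤˣ, pr M ρ χ v = 0 := by
    intro χ
    have h4 : (orb M H) (⟦χ⟧ : Quotient (orb M H)).out χ := Quotient.exact (Quotient.out_eq _)
    obtain ⟨h, hh, h5⟩ := h4
    have h6 : pr M ρ (⟦χ⟧ : Quotient (orb M H)).out v = 0 := by
      rw [← comp_apply M H ρ v, hv]
      rfl
    have h7 := pr_act M ρ (⟦χ⟧ : Quotient (orb M H)).out h (v : V)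
    rw [h6, map_zero, h5, v.2 h hh] at h7
    exact h7.symm
  rw [Finset.sum_eq_zero fun χ _ => h3 χ] at h2
  apply Subtype.ext
  exact (smul_eq_zero.1 h2.symm).resolve_left hc

theorem comp_surj [Fintype M] : Function.Surjective (comp M H ρ) := by
  classical
  have : Fintype H := Fintype.ofFinite _
  have : Fintype (Quotient (orb M H)) := Fintype.ofFinite _
  intro w
  set n : Quotient (orb M H) → F := fun o =>
    ((Finset.univ.filter fun h : H => (h : G) ∈ stab M H o.out).card : F) * Fintype.card M with hn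
  have hn0 : ∀ o, n o ≠ 0 := by
    intro o
    refine mul_ne_zero ?_ (by exact_mod_cast Fintype.card_ne_zero)
    rw [Nat.cast_ne_zero]
    refine Finset.card_ne_zero.2 ⟨1, ?_⟩
    rw [Finset.mem_filter]
    exact ⟨Finset.mem_univ _, (stab M H o.out).one_mem⟩
  set v : V := ∑ o, (n o)⁻¹ • ∑ h : H, ρ h (w o : V) with hv
  have hvm : v ∈ fixS ρ H := by
    intro k hk
    rw [hv, map_sum]
    refine Finset.sum_congr rfl fun o _ => ?_
    rw [map_smul, map_sum]
    congr 1
    refine Fintype.sum_equiv (Equiv.mulLeft (⟨k, hk⟩ : H)) _ _ fun h => ?_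
    rw [Equiv.coe_mulLeft, Subgroup.coe_mul, map_mul]
    rfl
  refine ⟨⟨v, hvm⟩, ?_⟩
  funext o'
  apply Subtype.ext
  rw [comp_apply]
  change pr M ρ o'.out v = _
  have key : ∀ (o : Quotient (orb M H)) (h : H), pr M ρ o'.out (ρ h (w o : V)) =
      if o = o' ∧ (h : G) ∈ stab M H o'.out then (Fintype.card M : F) • (w o' : V) else 0 := by
    intro o h
    have h1 := pr_act M ρ (act M (h : G)⁻¹ o'.out) (h : G) (w o : V)
    rw [← act_mul, mul_inv_cancel, act_one, pr_eigvec M ρ _ o.out (w o).2.1] at h1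
    rw [← h1]
    by_cases h2 : act M (h : G)⁻¹ o'.out = o.out
    · have h3 : o = o' := by
        rw [← Quotient.out_eq o, ← Quotient.out_eq o']
        refine (Quotient.sound ?_).symm
        exact ⟨(h : G)⁻¹, H.inv_mem h.2, h2⟩
      subst h3
      have h4 : (h : G) ∈ stab M H o.out := by
        have : (h : G)⁻¹ ∈ stab M H o.out := ⟨H.inv_mem h.2, h2⟩
        have h5 := (stab M H o.out).inv_mem this
        rwa [inv_inv] at h5
      rw [if_pos h2, if_pos ⟨rfl, h4⟩, map_smul, (w o).2.2 h h4]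
    · rw [if_neg h2, zero_smul, map_zero]
      split_ifs with h3
      · exfalso
        apply h2
        obtain ⟨rfl, h4⟩ := h3
        exact ((stab M H o.out).inv_mem h4).2
      · rfl
  rw [hv, map_sum, Finset.sum_eq_single o']
  · rw [map_smul, map_sum, Finset.sum_congr rfl fun h _ => key o' h]
    have h1 : ∀ h : H, (if o' = o' ∧ (h : G) ∈ stab M H o'.out then
        (Fintype.card M : F) • (w o' : V) else 0) = if (h : G) ∈ stab M H o'.out then
        (Fintype.card M : F) • (w o' : V) else 0 := by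
      intro h
      simp
    rw [Finset.sum_congr rfl fun h _ => h1 h, ← Finset.sum_filter, Finset.sum_const,
      ← Nat.cast_smul_eq_nsmul F, smul_smul, smul_smul]
    have h2 : (n o')⁻¹ * (((Finset.univ.filter fun h : H => (h : G) ∈ stab M H o'.out).card : F) *
        Fintype.card M) = 1 := inv_mul_cancel₀ (hn0 o')
    rw [mul_assoc, h2, one_smul]
  · intro o _ ho
    rw [map_smul, map_sum, Finset.sum_eq_zero, smul_zero]
    intro h _
    rw [key, if_neg fun h => ho h.1]
  · intro h
    exact absurd (Finset.mem_univ _) h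

/-- a vector which is fixed by two subgroups -/
theorem fix_sup {A B : Subgroup G} {v : V} (hA : ∀ g ∈ A, ρ g v = v) (hB : ∀ g ∈ B, ρ g v = v) :
    v ∈ fixS ρ (A ⊔ B) := by
  let S : Subgroup G :=
    { carrier := {g | ρ g v = v}
      mul_mem' := by
        intro a b ha hb
        change ρ (a * b) v = v
        rw [map_mul]
        change ρ a (ρ b v) = v
        rw [hb, ha]
      one_mem' := by
        change ρ 1 v = v
        rw [map_one]
        rfl
      inv_mem' := by
        intro a ha
        change ρ a⁻¹ v = v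
        have h1 : ρ (a⁻¹ * a) v = v := by rw [inv_mul_cancel, map_one]; rfl
        rw [map_mul] at h1
        change ρ a⁻¹ (ρ a v) = v at h1
        rwa [show ρ a v = v from ha] at h1 }
  have h : A ⊔ B ≤ S := sup_le hA hB
  exact fun g hg => h hg

variable [FiniteDimensional F V]

theorem finrank_comp (hsq : ∀ m ∈ M, m * m ∈ H) [Fintype (Quotient (orb M H))] :
    finrank F (fixS ρ H) = ∑ o : Quotient (orb M H), finrank F (Wc M H ρ o.out) := by
  have : Fintype M := Fintype.ofFinite _
  rw [(LinearEquiv.ofBijective (comp M H ρ)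
    ⟨comp_inj M H ρ hsq, comp_surj M H ρ⟩).finrank_eq, Module.finrank_pi_fintype]

theorem Wc_one : Wc M H ρ 1 = fixS ρ (M ⊔ H) := by
  ext v
  constructor
  · rintro ⟨h1, h2⟩
    refine fix_sup ρ (fun g hg => ?_) (fun g hg => h2 g ⟨hg, act_triv M g⟩)
    have h3 := h1 ⟨g, hg⟩
    rw [MonoidHom.one_apply, map_one, one_smul] at h3
    exact h3
  · intro hv
    refine ⟨fun m => ?_, fun h hh => hv h ((le_sup_right : H ≤ M ⊔ H) hh.1)⟩
    rw [MonoidHom.one_apply, map_one, one_smul]
    exact hv m ((le_sup_left : M ≤ M ⊔ H) m.2)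

theorem small_one : small M H 1 = big M H 1 := by
  refine le_antisymm (small_le_big M H 1) ?_
  refine sup_le_sup_right ?_ _
  intro g hg
  exact (mem_krn M).2 ⟨hg, rfl⟩

theorem finrank_small (χ : M →* ℤˣ) (hχ : χ ≠ 1) :
    finrank F (fixS ρ (small M H χ)) =
      finrank F (Wc M H ρ χ) + finrank F (fixS ρ (big M H χ)) := by
  obtain ⟨m₀, h0⟩ : ∃ m₀, χ m₀ ≠ 1 := by
    by_contra hc
    push Not at hc
    apply hχ
    ext m
    rw [hc m]
    rfl
  set A := fixS ρ (small M H χ) with hA
  have hst : ∀ v ∈ A, ρ m₀ v ∈ A := by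
    intro v hv g hg
    have h1 := conj_small M H χ m₀ hg
    have h2 : ρ g (ρ m₀ v) = ρ m₀ (ρ ((m₀ : G)⁻¹ * g * m₀) v) := by
      have e : g * (m₀ : G) = m₀ * ((m₀ : G)⁻¹ * g * m₀) := by group
      calc ρ g (ρ m₀ v) = ρ (g * m₀) v := by rw [map_mul]; rfl
        _ = ρ (m₀ * ((m₀ : G)⁻¹ * g * m₀)) v := by rw [← e]
        _ = _ := by rw [map_mul]; rfl
    rw [h2, hv _ h1]
  have hsq : ∀ v ∈ A, ρ m₀ (ρ m₀ v) = v := by
    intro v hv
    have h1 : (m₀ : G) * m₀ ∈ small M H χ := by
      apply (le_sup_left : krn M χ ≤ _)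
      refine (mem_krn M).2 ⟨M.mul_mem m₀.2 m₀.2, ?_⟩
      change χ (m₀ * m₀) = 1
      rw [map_mul, units_sq]
    have h2 := hv _ h1
    rw [map_mul] at h2
    exact h2
  set T : A →ₗ[F] A := (ρ m₀).restrict hst with hT
  have hTT : ∀ v : A, T (T v) = v := fun v => Subtype.ext (hsq v v.2)
  set S : A →ₗ[F] A := T - LinearMap.id with hS
  have hSv : ∀ v : A, S v = T v - v := fun v => rfl
  have hr := S.finrank_range_add_finrank_ker
  have e1 : (LinearMap.range S).map A.subtype = Wc M H ρ χ := by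
    ext x
    rw [Submodule.mem_map]
    constructor
    · rintro ⟨_, ⟨v, rfl⟩, rfl⟩
      have h1 : T (S v) = -(S v) := by
        rw [hSv, _root_.map_sub, hTT]
        abel
      set y := S v
      have h2 : ρ m₀ (y : V) = -(y : V) := congrArg Subtype.val h1
      refine ⟨fun m => ?_, fun h hh => y.2 h ((le_sup_right : stab M H χ ≤ _) hh)⟩
      change ρ m (y : V) = _ • (y : V)
      by_cases h3 : χ m = 1
      · rw [h3, map_one, one_smul]
        exact y.2 m ((le_sup_left : krn M χ ≤ _) ((mem_krn M).2 ⟨m.2, h3⟩))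
      · rw [sg_ne h3]
        have h4 : (m₀ : G)⁻¹ * m ∈ small M H χ := by
          apply (le_sup_left : krn M χ ≤ _)
          refine (mem_krn M).2 ⟨M.mul_mem (M.inv_mem m₀.2) m.2, ?_⟩
          change χ (m₀⁻¹ * m) = 1
          rw [map_mul, map_inv, (Int.units_eq_one_or (χ m)).resolve_left h3,
            (Int.units_eq_one_or (χ m₀)).resolve_left h0]
          decide
        have e : (m : G) = m₀ * ((m₀ : G)⁻¹ * m) := by group
        rw [e, map_mul]
        change ρ m₀ (ρ ((m₀ : G)⁻¹ * m) (y : V)) = _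
        rw [y.2 _ h4, h2]
        simp
    · rintro ⟨h1, h2⟩
      have hxA : x ∈ A := by
        refine fix_sup ρ (fun g hg => ?_) h2
        obtain ⟨h3, h4⟩ := (mem_krn M).1 hg
        have h5 := h1 ⟨g, h3⟩
        rw [h4, map_one, one_smul] at h5
        exact h5
      have h3 : ρ m₀ x = -x := by
        rw [h1 m₀, sg_ne h0]
        simp
      refine ⟨⟨x, hxA⟩, ⟨(-(1 / 2 : F)) • ⟨x, hxA⟩, ?_⟩, rfl⟩
      apply Subtype.ext
      change ρ m₀ ((-(1 / 2 : F)) • x) - (-(1 / 2 : F)) • x = x
      rw [map_smul, h3, smul_neg, neg_smul, neg_neg, sub_neg_eq_add, ← add_smul]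
      norm_num
  have e2 : (LinearMap.ker S).map A.subtype = fixS ρ (big M H χ) := by
    ext x
    rw [Submodule.mem_map]
    constructor
    · rintro ⟨v, hv, rfl⟩
      rw [LinearMap.mem_ker, hSv, sub_eq_zero] at hv
      have h2 : ρ m₀ (v : V) = v := congrArg Subtype.val hv
      intro u hu
      change ρ u (v : V) = v
      rcases big_small M H h0 hu with h | h
      · exact v.2 u h
      · have e : u = m₀ * ((m₀ : G)⁻¹ * u) := by group
        rw [e, map_mul]
        change ρ m₀ (ρ ((m₀ : G)⁻¹ * u) (v : V)) = _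
        rw [v.2 _ h, h2]
    · intro hx
      have hxA : x ∈ A := fixS_anti (small_le_big M H χ) hx
      refine ⟨⟨x, hxA⟩, ?_, rfl⟩
      rw [LinearMap.mem_ker, hSv, sub_eq_zero]
      apply Subtype.ext
      exact hx m₀ ((le_sup_left : M ≤ M ⊔ stab M H χ) m₀.2)
  rw [← e1, ← e2, Submodule.finrank_map_subtype_eq, Submodule.finrank_map_subtype_eq]
  exact hr.symm

theorem small_index (χ : M →* ℤˣ) : (small M H χ).relIndex (big M H χ) ≤ 2 := by
  by_cases hχ : χ = 1
  · subst hχ
    rw [small_one, Subgroup.relIndex_self]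
    omega
  · obtain ⟨m₀, h0⟩ : ∃ m₀, χ m₀ ≠ 1 := by
      by_contra hc
      push Not at hc
      apply hχ
      ext m
      rw [hc m]
      rfl
    have hm₀ : (m₀ : G) ∈ big M H χ := (le_sup_left : M ≤ M ⊔ stab M H χ) m₀.2
    have hsurj : Function.Surjective (fun b : Bool =>
        ((if b then ⟨(m₀ : G), hm₀⟩ else 1 : big M H χ) :
          big M H χ ⧸ (small M H χ).subgroupOf (big M H χ))) := by
      intro q
      obtain ⟨u, rfl⟩ := QuotientGroup.mk_surjective q
      rcases big_small M H h0 u.2 with h | h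
      · refine ⟨false, ?_⟩
        simp only [Bool.false_eq_true, if_false]
        rw [QuotientGroup.eq, inv_one, one_mul, Subgroup.mem_subgroupOf]
        exact h
      · refine ⟨true, ?_⟩
        simp only [if_true]
        rw [QuotientGroup.eq, Subgroup.mem_subgroupOf]
        exact h
    have h1 := Nat.card_le_card_of_surjective _ hsurj
    have h2 : Nat.card Bool = 2 := by simp
    rw [h2] at h1
    exact h1

/-- **The parity for subgroups which contain the squares of `M`.** -/
theorem parity_sq (hsq : ∀ m ∈ M, m * m ∈ H) [Fintype (Quotient (orb M H))] :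
    (finrank F (fixS ρ H) : ZMod 2) = (finrank F (fixS ρ (M ⊔ H)) : ZMod 2) +
      ∑ o : Quotient (orb M H), ((finrank F (fixS ρ (small M H o.out)) : ZMod 2) +
        (finrank F (fixS ρ (big M H o.out)) : ZMod 2)) := by
  classical
  have h2 : ∀ t : ZMod 2, t + t = 0 := by decide
  have key : ∀ o : Quotient (orb M H), (finrank F (Wc M H ρ o.out) : ZMod 2) =
      (if o = ⟦1⟧ then (finrank F (fixS ρ (M ⊔ H)) : ZMod 2) else 0) +
      ((finrank F (fixS ρ (small M H o.out)) : ZMod 2) +
        (finrank F (fixS ρ (big M H o.out)) : ZMod 2)) := by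
    intro o
    by_cases ho : o.out = 1
    · have h1 : o = ⟦1⟧ := by rw [← ho, Quotient.out_eq]
      rw [if_pos h1, ho, small_one, h2, add_zero, Wc_one]
    · have h1 : o ≠ ⟦1⟧ := by
        rintro rfl
        apply ho
        have h3 : (orb M H) (⟦1⟧ : Quotient (orb M H)).out 1 := Quotient.exact (Quotient.out_eq _)
        obtain ⟨h, hh, h4⟩ := (orb M H).symm h3
        rw [← h4, act_triv]
      rw [if_neg h1, zero_add, finrank_small M H ρ o.out ho, Nat.cast_add, add_assoc, h2,
        add_zero]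
  rw [finrank_comp M H ρ hsq, Nat.cast_sum, Finset.sum_congr rfl fun o _ => key o,
    Finset.sum_add_distrib]
  congr 1
  rw [Finset.sum_ite_eq']
  simp

end Pool.Agent.H81.PB
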