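import Pool.Agent.H81.PB.Orb

/-!
# The decomposition of the invariants under the orbits of characters
-/

set_option autoImplicit false
set_option linter.unusedSectionVars false

namespace Pool.Agent.H81.PB

open Module Pool.Agent.X156.SD

variable {G : Type} [Group G] [Finite G] (M H : Subgroup G) [hMn : M.Normal]
  {F : Type} [Field F] [CharZero F] {V : Type} [AddCommGroup V] [Module F V]
  (ρ : G →* (V →ₗ[F] V))

/-- the sign as an element of the field -/
def sg (F : Type) [Field F] : ℤˣ →* F :=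
  ((Int.castRingHom F : ℤ →+* F) : ℤ →* F).comp (Units.coeHom ℤ)

theorem sg_sq (u : ℤˣ) : sg F u * sg F u = 1 := by
  rw [← map_mul, units_sq, map_one]

theorem sg_ne {u : ℤˣ} (h : u ≠ 1) : sg F u = -1 := by
  rw [(Int.units_eq_one_or u).resolve_left h]
  simp [sg]

theorem sg_inj {u : ℤˣ} (h : sg F u = 1) : u = 1 := by
  by_contra hu
  rw [sg_ne hu] at h
  have h2 : (2 : F) = 0 := by linear_combination -h
  exact two_ne_zero h2

/-- the vectors on which `M` acts by `χ` and the stabilizer of `χ` in `H` trivially -/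
def Wc (χ : M →* ℤˣ) : Submodule F V where
  carrier := {v | (∀ m : M, ρ m v = sg F (χ m) • v) ∧ ∀ h ∈ stab M H χ, ρ h v = v}
  add_mem' := by
    rintro a b ⟨ha, ha'⟩ ⟨hb, hb'⟩
    exact ⟨fun m => by rw [map_add, ha, hb, smul_add], fun h hh => by
      rw [map_add, ha' h hh, hb' h hh]⟩
  zero_mem' := ⟨fun m => by rw [map_zero, smul_zero], fun h _ => map_zero _⟩
  smul_mem' := by
    rintro c v ⟨hv, hv'⟩
    exact ⟨fun m => by rw [map_smul, hv, smul_comm], fun h hh => by rw [map_smul, hv' h hh]⟩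

theorem mem_Wc {χ : M →* ℤˣ} {v : V} : v ∈ Wc M H ρ χ ↔
    (∀ m : M, ρ m v = sg F (χ m) • v) ∧ ∀ h ∈ stab M H χ, ρ h v = v := Iff.rfl

section

variable [Fintype M]

/-- the projection, not normalized -/
def pr (χ : M →* ℤˣ) : V →ₗ[F] V := ∑ m : M, sg F (χ m) • ρ m

theorem pr_apply (χ : M →* ℤˣ) (v : V) : pr M ρ χ v = ∑ m : M, sg F (χ m) • ρ m v := by
  unfold pr
  rw [LinearMap.sum_apply]
  rfl

theorem pr_eig (χ : M →* ℤˣ) (n : M) (v : V) : ρ n (pr M ρ χ v) = sg F (χ n) • pr M ρ χ v := by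
  rw [pr_apply, map_sum, Finset.smul_sum]
  refine Fintype.sum_equiv (Equiv.mulLeft n) _ _ fun m => ?_
  rw [map_smul, smul_smul, Equiv.coe_mulLeft, map_mul, map_mul, ← mul_assoc, sg_sq, one_mul,
    Subgroup.coe_mul, map_mul]
  rfl

theorem pr_act (χ : M →* ℤˣ) (g : G) (v : V) :
    ρ g (pr M ρ χ v) = pr M ρ (act M g χ) (ρ g v) := by
  rw [pr_apply, pr_apply, map_sum]
  refine Fintype.sum_equiv (MulAut.conjNormal g : M ≃* M).toEquiv _ _ fun m => ?_
  rw [map_smul]
  have h1 : act M g χ ((MulAut.conjNormal g : M ≃* M).toEquiv m) = χ m := by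
    change χ ((MulAut.conjNormal g⁻¹ : M ≃* M) ((MulAut.conjNormal g : M ≃* M) m)) = χ m
    congr 1
    rw [map_inv]
    exact MulEquiv.symm_apply_apply _ _
  rw [h1]
  congr 1
  have h2 : (((MulAut.conjNormal g : M ≃* M).toEquiv m : M) : G) = g * m * g⁻¹ :=
    MulAut.conjNormal_apply g m
  rw [h2]
  have h3 : g * (m : G) * g⁻¹ * g = g * m := by group
  calc ρ g (ρ m v) = ρ (g * m) v := by rw [map_mul]; rfl
    _ = ρ (g * (m : G) * g⁻¹ * g) v := by rw [h3]
    _ = _ := by rw [map_mul]; rfl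

theorem sum_chi (χ ψ : M →* ℤˣ) :
    ∑ m : M, sg F (χ m) * sg F (ψ m) = if χ = ψ then (Fintype.card M : F) else 0 := by
  classical
  split_ifs with h
  · rw [h, Finset.sum_congr rfl fun m _ => sg_sq (F := F) (ψ m)]
    simp
  · have h1 : ((sg F).comp (χ * ψ) : M →* F) ≠ 1 := by
      intro h2
      apply h
      ext m
      have h3 := congrArg (fun f : M →* F => f m) h2
      have h4 : (χ m) * (ψ m) = 1 := sg_inj (F := F) h3
      have h5 := units_sq (ψ m)
      congr 1
      exact mul_right_cancel (h4.trans h5.symm)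
    have h2 := sum_hom_units_eq_zero _ h1
    rw [← h2]
    refine Finset.sum_congr rfl fun m _ => ?_
    rw [← map_mul]
    rfl

theorem pr_eigvec (χ ψ : M →* ℤˣ) {w : V} (hw : ∀ m : M, ρ m w = sg F (ψ m) • w) :
    pr M ρ χ w = (if χ = ψ then (Fintype.card M : F) else 0) • w := by
  rw [pr_apply, ← sum_chi, Finset.sum_smul]
  refine Finset.sum_congr rfl fun m _ => ?_
  rw [hw, smul_smul]

theorem complete [Fintype (M →* ℤˣ)] (hsq : ∀ m ∈ M, m * m ∈ H) : ∃ c : F, c ≠ 0 ∧
    ∀ v ∈ fixS ρ H, ∑ χ : M →* ℤˣ, pr M ρ χ v = c • v := by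
  classical
  have hmem : ∀ m : M, (∀ χ : M →* ℤˣ, χ m = 1) → (m : G) ∈ H := by
    intro m hm
    by_contra hc
    have h1 : m ∉ sqs M := by
      intro h2
      apply hc
      have h3 : sqs M ≤ H.comap M.subtype := by
        unfold sqs
        rw [Subgroup.closure_le]
        rintro _ ⟨g, rfl⟩
        exact hsq g g.2
      exact h3 h2
    obtain ⟨χ, hχ⟩ := sep m h1
    exact hχ (hm χ)
  refine ⟨((∑ m : M, if (∀ χ : M →* ℤˣ, χ m = 1) then Fintype.card (M →* ℤˣ) else 0 : ℕ) : F),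
    ?_, ?_⟩
  · rw [Nat.cast_ne_zero]
    have h0 : 0 < Fintype.card (M →* ℤˣ) := Fintype.card_pos
    have h := Finset.single_le_sum (f := fun m : M => if (∀ χ : M →* ℤˣ, χ m = 1) then
      Fintype.card (M →* ℤˣ) else 0) (fun _ _ => Nat.zero_le _) (Finset.mem_univ (1 : M))
    have h2 : Fintype.card (M →* ℤˣ) ≤ ∑ m : M, if (∀ χ : M →* ℤˣ, χ m = 1) then
        Fintype.card (M →* ℤˣ) else 0 := by simpa using h
    omega
  · intro v hv
    rw [Finset.sum_congr rfl fun χ _ => pr_apply M ρ χ v, Finset.sum_comm, Nat.cast_sum,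
      Finset.sum_smul]
    refine Finset.sum_congr rfl fun m _ => ?_
    rw [← Finset.sum_smul]
    split_ifs with h
    · rw [hv m (hmem m h)]
      congr 1
      rw [Finset.sum_congr rfl fun χ _ => by rw [h χ, map_one]]
      rw [Finset.sum_const, Finset.card_univ, nsmul_eq_mul, mul_one]
    · rw [Nat.cast_zero, zero_smul]
      have h1 : ∑ χ : M →* ℤˣ, sg F (χ m) = 0 := by
        have h2 : ((sg F).comp (MonoidHom.eval m) : (M →* ℤˣ) →* F) ≠ 1 := by
          intro h3
          apply h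
          intro χ
          exact sg_inj (F := F) (congrArg (fun f : (M →* ℤˣ) →* F => f χ) h3)
        exact sum_hom_units_eq_zero _ h2
      rw [h1, zero_smul]

end

end Pool.Agent.H81.PB
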