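import Pool.Agent.H81.PB.Par

/-!
# Normal subgroups of odd index
-/

set_option autoImplicit false
set_option linter.unusedSectionVars false

namespace Pool.Agent.H81.PB

open Module Pool.Agent.X156.SD

variable {G : Type} [Group G] [Finite G]
  {F : Type} [Field F] [CharZero F] {V : Type} [AddCommGroup V] [Module F V]
  [FiniteDimensional F V]

theorem odd_normal_aux {ρ : G →* (V →ₗ[F] V)} (hρ : SelfDual ρ) (N : Subgroup G) [N.Normal]
    (h : Odd N.index) :
    (finrank F (fixS ρ N) : ZMod 2) = (finrank F (fixS ρ ⊤) : ZMod 2) := by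
  have hle : N ≤ (Pool.Agent.X156.SD.sub ρ N).ker := fun n hn => sub_eq_one ρ N hn
  set τ : (G ⧸ N) →* (fixS ρ N →ₗ[F] fixS ρ N) := QuotientGroup.lift N (Pool.Agent.X156.SD.sub ρ N) hle with hτ
  have hτa : ∀ g : G, τ (g : G ⧸ N) = Pool.Agent.X156.SD.sub ρ N g := fun g => rfl
  have h1 : SelfDual τ := by
    obtain ⟨B, h1, h2⟩ := hρ.sub N
    refine ⟨B, fun q v w => ?_, h2⟩
    obtain ⟨g, rfl⟩ := QuotientGroup.mk_surjective q
    rw [hτa]
    exact h1 g v w
  have h2 : Odd (Nat.card (⊤ : Subgroup (G ⧸ N))) := by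
    rw [Subgroup.card_top]
    exact h
  have h3 := odd_step h1 ⊤ h2
  have h4 : (fixS τ ⊤).map (fixS ρ N).subtype = fixS ρ ⊤ := by
    ext x
    rw [Submodule.mem_map]
    constructor
    · rintro ⟨v, hv, rfl⟩ g _
      have h5 := hv (g : G ⧸ N) (Subgroup.mem_top _)
      rw [hτa] at h5
      exact congrArg Subtype.val h5
    · intro hx
      refine ⟨⟨x, fixS_anti le_top hx⟩, ?_, rfl⟩
      intro q _
      obtain ⟨g, rfl⟩ := QuotientGroup.mk_surjective q
      rw [hτa]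
      exact Subtype.ext (hx g (Subgroup.mem_top _))
  rw [h3, ← h4, Submodule.finrank_map_subtype_eq]

theorem odd_normal {ρ : G →* (V →ₗ[F] V)} (hρ : SelfDual ρ) (H H' : Subgroup G) (hle : H ≤ H')
    (hn : (H.subgroupOf H').Normal) (ho : Odd (H.relIndex H')) :
    (finrank F (fixS ρ H) : ZMod 2) = (finrank F (fixS ρ H') : ZMod 2) := by
  have h1 : SelfDual (ρ.comp H'.subtype) := by
    obtain ⟨B, h1, h2⟩ := hρ
    exact ⟨B, fun g v w => h1 g v w, h2⟩
  have h2 := odd_normal_aux h1 (H.subgroupOf H') ho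
  have h3 : fixS (ρ.comp H'.subtype) (H.subgroupOf H') = fixS ρ H := by
    ext v
    exact ⟨fun hv h hh => hv ⟨h, hle hh⟩ hh, fun hv h hh => hv h hh⟩
  have h4 : fixS (ρ.comp H'.subtype) ⊤ = fixS ρ H' := by
    ext v
    exact ⟨fun hv h hh => hv ⟨h, hh⟩ (Subgroup.mem_top _), fun hv h _ => hv h h.2⟩
  rwa [h3, h4] at h2

end Pool.Agent.H81.PB
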