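import Pool.Agent.H81.PB.Sep

/-!
# The invariants of a subgroup which contains the squares of a normal subgroup
-/

set_option autoImplicit false
set_option linter.unusedSectionVars false

namespace Pool.Agent.H81.PB

open Module Pool.Agent.X156.SD

variable {G : Type} [Group G] (M H : Subgroup G) [hMn : M.Normal]

/-- the conjugate character -/
def act (g : G) (χ : M →* ℤˣ) : M →* ℤˣ := χ.comp (MulAut.conjNormal g⁻¹ : M ≃* M).toMonoidHom

theorem act_apply (g : G) (χ : M →* ℤˣ) (m : M) :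
    act M g χ m = χ ⟨g⁻¹ * m * g, by
      have := hMn.conj_mem m m.2 g⁻¹
      rwa [inv_inv] at this⟩ := by
  unfold act
  rw [MonoidHom.comp_apply]
  congr 1
  apply Subtype.ext
  change ((MulAut.conjNormal g⁻¹ m : M) : G) = g⁻¹ * m * g
  rw [MulAut.conjNormal_apply, inv_inv]

theorem act_one (χ : M →* ℤˣ) : act M 1 χ = χ := by
  ext m
  rw [act_apply]
  simp

theorem act_mul (g h : G) (χ : M →* ℤˣ) : act M (g * h) χ = act M g (act M h χ) := by
  ext m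
  rw [act_apply, act_apply, act_apply]
  congr 3
  group

theorem act_inv_act (g : G) (χ : M →* ℤˣ) : act M g⁻¹ (act M g χ) = χ := by
  rw [← act_mul, inv_mul_cancel, act_one]

theorem act_triv (g : G) : act M g 1 = 1 := by
  ext m
  rw [act_apply]
  rfl

/-- the orbits of characters -/
def orb : Setoid (M →* ℤˣ) where
  r χ ψ := ∃ h ∈ H, act M h χ = ψ
  iseqv := by
    refine ⟨fun χ => ⟨1, H.one_mem, act_one M χ⟩, ?_, ?_⟩
    · rintro χ ψ ⟨h, hh, rfl⟩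
      exact ⟨h⁻¹, H.inv_mem hh, act_inv_act M h χ⟩
    · rintro χ ψ φ ⟨h, hh, rfl⟩ ⟨k, hk, rfl⟩
      exact ⟨k * h, H.mul_mem hk hh, act_mul M k h χ⟩

/-- the stabilizer in `H` of a character -/
def stab (χ : M →* ℤˣ) : Subgroup G where
  carrier := {h | h ∈ H ∧ act M h χ = χ}
  mul_mem' := by
    rintro a b ⟨ha, ha'⟩ ⟨hb, hb'⟩
    exact ⟨H.mul_mem ha hb, by rw [act_mul, hb', ha']⟩
  one_mem' := ⟨H.one_mem, act_one M χ⟩
  inv_mem' := by
    rintro a ⟨ha, ha'⟩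
    refine ⟨H.inv_mem ha, ?_⟩
    nth_rewrite 1 [← ha']
    exact act_inv_act M a χ

theorem mem_stab {χ : M →* ℤˣ} {h : G} : h ∈ stab M H χ ↔ h ∈ H ∧ act M h χ = χ := Iff.rfl

/-- the kernel of a character -/
def krn (χ : M →* ℤˣ) : Subgroup G := χ.ker.map M.subtype

theorem mem_krn {χ : M →* ℤˣ} {g : G} : g ∈ krn M χ ↔ ∃ h : g ∈ M, χ ⟨g, h⟩ = 1 := by
  unfold krn
  rw [Subgroup.mem_map]
  constructor
  · rintro ⟨m, hm, rfl⟩
    exact ⟨m.2, hm⟩
  · rintro ⟨h, h1⟩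
    exact ⟨⟨g, h⟩, h1, rfl⟩

/-- the field `F^U` -/
def big (χ : M →* ℤˣ) : Subgroup G := M ⊔ stab M H χ

/-- its quadratic extension -/
def small (χ : M →* ℤˣ) : Subgroup G := krn M χ ⊔ stab M H χ

theorem krn_le (χ : M →* ℤˣ) : krn M χ ≤ M := by
  intro g hg
  exact ((mem_krn M).1 hg).1

theorem small_le_big (χ : M →* ℤˣ) : small M H χ ≤ big M H χ :=
  sup_le_sup_right (krn_le M χ) _

/-- conjugation by elements of the stabilizer -/
theorem chi_conj {χ : M →* ℤˣ} {h : G} (hh : h ∈ stab M H χ) (m : M) (hm : h⁻¹ * m * h ∈ M) :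
    χ ⟨h⁻¹ * m * h, hm⟩ = χ m := by
  have h1 := congrArg (fun ψ : M →* ℤˣ => ψ m) hh.2
  rw [← h1]
  change _ = act M h χ m
  rw [act_apply]

theorem units_sq (u : ℤˣ) : u * u = 1 := by
  rcases Int.units_eq_one_or u with h | h <;> rw [h] <;> decide

/-- the elements of `M` normalize the small subgroup -/
theorem conj_small (χ : M →* ℤˣ) (m₀ : M) {g : G} (hg : g ∈ small M H χ) :
    (m₀ : G)⁻¹ * g * m₀ ∈ small M H χ := by
  have h1 : small M H χ ≤ (small M H χ).comap (MulAut.conj (m₀ : G)⁻¹).toMonoidHom := by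
    rw [small, sup_le_iff]
    constructor
    · intro k hk
      rw [Subgroup.mem_comap]
      change (m₀ : G)⁻¹ * k * (m₀ : G)⁻¹⁻¹ ∈ _
      rw [inv_inv]
      apply (le_sup_left : krn M χ ≤ _)
      obtain ⟨h2, h3⟩ := (mem_krn M).1 hk
      rw [mem_krn]
      refine ⟨M.mul_mem (M.mul_mem (M.inv_mem m₀.2) h2) m₀.2, ?_⟩
      have : (⟨(m₀ : G)⁻¹ * k * m₀, M.mul_mem (M.mul_mem (M.inv_mem m₀.2) h2) m₀.2⟩ : M) =
        m₀⁻¹ * ⟨k, h2⟩ * m₀ := rfl
      rw [this, map_mul, map_mul, h3, mul_one, ← map_mul, inv_mul_cancel, map_one]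
    · intro h hh
      rw [Subgroup.mem_comap]
      change (m₀ : G)⁻¹ * h * (m₀ : G)⁻¹⁻¹ ∈ _
      rw [inv_inv]
      have h2 : (h⁻¹ * (m₀ : G)⁻¹ * h) ∈ M := by
        have := hMn.conj_mem _ (M.inv_mem m₀.2) h⁻¹
        rwa [inv_inv] at this
      have e : (m₀ : G)⁻¹ * h * m₀ = h * ((h⁻¹ * (m₀ : G)⁻¹ * h) * m₀) := by group
      rw [e]
      refine Subgroup.mul_mem _ ((le_sup_right : stab M H χ ≤ _) hh) ?_
      apply (le_sup_left : krn M χ ≤ _)
      rw [mem_krn]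
      refine ⟨M.mul_mem h2 m₀.2, ?_⟩
      have e2 : (⟨(h⁻¹ * (m₀ : G)⁻¹ * h) * m₀, M.mul_mem h2 m₀.2⟩ : M) = ⟨_, h2⟩ * m₀ := rfl
      have e3 := chi_conj M H hh m₀⁻¹ (by exact h2)
      rw [e2, map_mul]
      have e4 : χ ⟨h⁻¹ * (m₀ : G)⁻¹ * h, h2⟩ = χ m₀⁻¹ := e3
      rw [e4, ← map_mul, inv_mul_cancel, map_one]
  have h2 := h1 hg
  rw [Subgroup.mem_comap] at h2
  change (m₀ : G)⁻¹ * g * (m₀ : G)⁻¹⁻¹ ∈ _ at h2
  rwa [inv_inv] at h2

/-- an element of `M` is in the small subgroup, or becomes so after multiplication with `m₀` -/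
theorem M_small {χ : M →* ℤˣ} {m₀ : M} (h0 : χ m₀ ≠ 1) (m : M) :
    (m : G) ∈ small M H χ ∨ (m₀ : G)⁻¹ * m ∈ small M H χ := by
  by_cases h : χ m = 1
  · left
    exact (le_sup_left : krn M χ ≤ _) ((mem_krn M).2 ⟨m.2, h⟩)
  · right
    apply (le_sup_left : krn M χ ≤ _)
    refine (mem_krn M).2 ⟨M.mul_mem (M.inv_mem m₀.2) m.2, ?_⟩
    change χ (m₀⁻¹ * m) = 1
    rw [map_mul, map_inv, (Int.units_eq_one_or (χ m)).resolve_left h,
      (Int.units_eq_one_or (χ m₀)).resolve_left h0]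
    decide

theorem big_small {χ : M →* ℤˣ} {m₀ : M} (h0 : χ m₀ ≠ 1) {u : G} (hu : u ∈ big M H χ) :
    u ∈ small M H χ ∨ (m₀ : G)⁻¹ * u ∈ small M H χ := by
  have h1 : big M H χ = M ⊔ stab M H χ := rfl
  rw [h1] at hu
  obtain ⟨m, hm, h, hh, rfl⟩ := Subgroup.mem_sup_of_normal_left.1 hu
  have h2 : h ∈ small M H χ := (le_sup_right : stab M H χ ≤ _) hh
  rcases M_small M H h0 ⟨m, hm⟩ with h3 | h3
  · left
    exact Subgroup.mul_mem _ h3 h2
  · right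
    rw [← mul_assoc]
    exact Subgroup.mul_mem _ h3 h2

end Pool.Agent.H81.PB
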