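import Pool.Agent.H81.PB.Dim

/-!
# Two families of subgroups for which the parity is determined
-/

set_option autoImplicit false
set_option linter.unusedSectionVars false

open scoped Pointwise

namespace Pool.Agent.H81.PB

open Module Pool.Agent.X156.SD

section

variable {G : Type} [Group G] [Finite G]
  {E : Type} [Field E] [CharZero E] {R : Type} [AddCommGroup R] [Module E R]
  [FiniteDimensional E R] {r : G →* (R →ₗ[E] R)}
  {C : Type} [Field C] [CharZero C] {V : Type} [AddCommGroup V] [Module C V]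
  [FiniteDimensional C V] {σ : G →* (V →ₗ[C] V)}

/-- the parities agree for all subgroups of index at most two in subgroups which contain `M` -/
def Agree (r : G →* (R →ₗ[E] R)) (σ : G →* (V →ₗ[C] V)) (M : Subgroup G) : Prop :=
  ∀ U J : Subgroup G, M ≤ U → J ≤ U → J.relIndex U ≤ 2 →
    (finrank E (fixS r J) : ZMod 2) = (finrank C (fixS σ J) : ZMod 2)

theorem agree_sq (M H : Subgroup G) [M.Normal] (hsq : ∀ m ∈ M, m * m ∈ H) (h : Agree r σ M) :
    (finrank E (fixS r H) : ZMod 2) = (finrank C (fixS σ H) : ZMod 2) := by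
  classical
  have : Fintype (Quotient (orb M H)) := Fintype.ofFinite _
  rw [parity_sq M H r hsq, parity_sq M H σ hsq]
  congr 1
  · exact h (M ⊔ H) (M ⊔ H) le_sup_left le_rfl (by rw [Subgroup.relIndex_self]; omega)
  · refine Finset.sum_congr rfl fun o _ => ?_
    congr 1
    · exact h (big M H o.out) (small M H o.out) le_sup_left (small_le_big M H _)
        (small_index M H _)
    · exact h (big M H o.out) (big M H o.out) le_sup_left le_rfl
        (by rw [Subgroup.relIndex_self]; omega)

theorem agree_odd (hr : SelfDual r) (hσ : SelfDual σ) (M N H : Subgroup G) [N.Normal]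
    (hN : Odd (Nat.card N)) (h2 : ∀ m ∈ M, ∃ k : ℕ, m ^ 2 ^ k ∈ N) (hH : Odd (Nat.card H))
    (h : Agree r σ M) :
    (finrank E (fixS r H) : ZMod 2) = (finrank C (fixS σ H) : ZMod 2) := by
  classical
  rw [← odd_step hr H hH, ← odd_step hσ H hH]
  have hp : IsPGroup 2 (M.map (QuotientGroup.mk' N)) := by
    rintro ⟨x, hx⟩
    obtain ⟨m, hm, rfl⟩ := Subgroup.mem_map.1 hx
    obtain ⟨k, hk⟩ := h2 m hm
    refine ⟨k, ?_⟩
    apply Subtype.ext
    rw [Subgroup.coe_pow, Subgroup.coe_one]
    change (QuotientGroup.mk' N m) ^ 2 ^ k = 1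
    rw [← map_pow]
    exact (QuotientGroup.eq_one_iff _).2 hk
  obtain ⟨Q, hQ⟩ := hp.exists_le_sylow
  set U : Subgroup G := (Q : Subgroup (G ⧸ N)).comap (QuotientGroup.mk' N) with hU
  have hMU : M ≤ U := by
    rw [hU, ← Subgroup.map_le_iff_le_comap]
    exact hQ
  have hNU : N ≤ U := by
    intro n hn
    rw [hU, Subgroup.mem_comap]
    have : QuotientGroup.mk' N n = 1 := (QuotientGroup.eq_one_iff n).2 hn
    rw [this]
    exact Subgroup.one_mem _
  have hidx : N.relIndex U = Nat.card Q := by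
    have h1 : N = (⊥ : Subgroup (G ⧸ N)).comap (QuotientGroup.mk' N) := by
      rw [MonoidHom.comap_bot, QuotientGroup.ker_mk']
    calc N.relIndex U = ((⊥ : Subgroup (G ⧸ N)).comap (QuotientGroup.mk' N)).relIndex U := by
          rw [← h1]
      _ = (⊥ : Subgroup (G ⧸ N)).relIndex (U.map (QuotientGroup.mk' N)) :=
          Subgroup.relIndex_comap _ _ _
      _ = (⊥ : Subgroup (G ⧸ N)).relIndex (Q : Subgroup (G ⧸ N)) := by
          rw [hU, Subgroup.map_comap_eq_self_of_surjective (QuotientGroup.mk'_surjective N)]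
      _ = Nat.card Q := Subgroup.relIndex_bot_left _
  obtain ⟨n, hn⟩ := (IsPGroup.iff_card).1 Q.isPGroup'
  rw [hn] at hidx
  rcases n with _ | n
  · have hle : U ≤ N := Subgroup.relIndex_eq_one.1 (by rw [hidx, pow_zero])
    rw [odd_step hr N hN, odd_step hσ N hN]
    exact h N N (hMU.trans hle) le_rfl (by rw [Subgroup.relIndex_self]; omega)
  · have hnor : (N.subgroupOf U).Normal := inferInstance
    rw [parity_sub hr U N hNU hnor hN hidx, parity_sub hσ U N hNU hnor hN hidx]
    refine Finset.sum_congr rfl fun J hJ => ?_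
    rw [mem_halves] at hJ
    exact h U J hMU hJ.1 hJ.2.le

end

section

open NumberField

variable (K F : Type) [Field K] [NumberField K] [Field F] [NumberField F] [Algebra K F]

/-- the subgroup generated by the decomposition groups of the prime ideals above `p` -/
def dec (p : ℕ) : Subgroup (F ≃ₐ[K] F) :=
  ⨆ P : {P : Ideal (𝓞 F) // P.IsPrime ∧ (p : 𝓞 F) ∈ P}, MulAction.stabilizer (F ≃ₐ[K] F) P.1

theorem dec_le {p : ℕ} {U : Subgroup (F ≃ₐ[K] F)} : dec K F p ≤ U ↔
    ∀ P : Ideal (𝓞 F), P.IsPrime → (p : 𝓞 F) ∈ P →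
      MulAction.stabilizer (F ≃ₐ[K] F) P ≤ U := by
  unfold dec
  rw [iSup_le_iff]
  exact ⟨fun h P h1 h2 => h ⟨P, h1, h2⟩, fun h P => h P.1 P.2.1 P.2.2⟩

instance dec_normal (p : ℕ) : (dec K F p).Normal := by
  refine ⟨fun m hm g => ?_⟩
  have h1 : dec K F p ≤ (dec K F p).comap (MulAut.conj g).toMonoidHom := by
    rw [dec_le]
    intro P hP hp s hs
    rw [Subgroup.mem_comap]
    change g * s * g⁻¹ ∈ _
    have h2 : (g • P).IsPrime := inferInstance
    have h3 : (p : 𝓞 F) ∈ g • P := by
      have h4 := Ideal.smul_mem_pointwise_smul g (p : 𝓞 F) P hp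
      have h5 : g • (p : 𝓞 F) = p := map_natCast (MulSemiringAction.toRingHom _ (𝓞 F) g) p
      rwa [h5] at h4
    refine (dec_le K F).1 le_rfl (g • P) h2 h3 ?_
    rw [MulAction.mem_stabilizer_iff] at hs ⊢
    rw [mul_smul, mul_smul, inv_smul_smul, hs]
  exact h1 hm

end

end Pool.Agent.H81.PB
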