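import Pool.Graph.R_pool_sql_team_seeded_64922ed1.X156.SD.Hmf

/-!
# Characters of order two separate the elements outside of the squares
-/

set_option autoImplicit false
set_option linter.unusedSectionVars false

namespace Pool.Agent.H81.PB

open Module

section

variable {A : Type} [Group A] [Finite A]

/-- the subgroup generated by the squares -/
def sqs (A : Type) [Group A] : Subgroup A := Subgroup.closure (Set.range fun g : A => g * g)

theorem sq_mem (a : A) : a * a ∈ sqs A := Subgroup.subset_closure ⟨a, rfl⟩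

/-- the sign character of a subgroup of index two -/
theorem exists_chi (K : Subgroup A) (hK : K.index = 2) :
    ∃ χ : A →* ℤˣ, ∀ a, χ a = 1 ↔ a ∈ K := by
  classical
  refine ⟨{ toFun := fun a => if a ∈ K then 1 else -1
            map_one' := by rw [if_pos K.one_mem]
            map_mul' := ?_ }, fun a => ?_⟩
  · intro a b
    have h := Subgroup.mul_mem_iff_of_index_two hK (a := a) (b := b)
    by_cases ha : a ∈ K <;> by_cases hb : b ∈ K <;> simp [h, ha, hb]
  · change (if a ∈ K then (1 : ℤˣ) else -1) = 1 ↔ a ∈ K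
    by_cases ha : a ∈ K
    · simp [ha]
    · simp only [ha, if_false, iff_false]
      decide

theorem sep (m : A) (hm : m ∉ sqs A) : ∃ χ : A →* ℤˣ, χ m ≠ 1 := by
  classical
  obtain ⟨K, hK⟩ := (Set.toFinite {K : Subgroup A | sqs A ≤ K ∧ m ∉ K}).exists_maximal
    ⟨sqs A, le_rfl, hm⟩
  have h1 : sqs A ≤ K := hK.prop.1
  have h2 : m ∉ K := hK.prop.2
  have hn : K.Normal := by
    refine ⟨fun k hk a => ?_⟩
    have e : a * k * a⁻¹ = (a * k) * (a * k) * k⁻¹ * (a⁻¹ * a⁻¹) := by group
    rw [e]
    exact K.mul_mem (K.mul_mem (h1 (sq_mem _)) (K.inv_mem hk)) (h1 (sq_mem _))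
  have hidx : K.index = 2 := by
    rw [Subgroup.index_eq_two_iff]
    refine ⟨m, fun b => ?_⟩
    by_cases hb : b ∈ K
    · right
      refine ⟨hb, fun h => h2 ?_⟩
      have := K.mul_mem (K.inv_mem hb) h
      rwa [inv_mul_cancel_left] at this
    · left
      refine ⟨?_, hb⟩
      have h3 : m ∈ Pool.Agent.X156.PR.ext K b := by
        by_contra hc
        have h4 := hK.le_of_ge (y := Pool.Agent.X156.PR.ext K b)
          ⟨h1.trans (Pool.Agent.X156.PR.le_ext K b), hc⟩ (Pool.Agent.X156.PR.le_ext K b)
        exact hb (h4 (Pool.Agent.X156.PR.self_mem_ext K b))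
      rcases Pool.Agent.X156.PR.mem_ext K (h1 (sq_mem b)) h3 with h | h
      · exact absurd h h2
      · have := K.mul_mem (h1 (sq_mem b)) h
        rwa [show b * b * (b⁻¹ * m) = b * m by group] at this
  obtain ⟨χ, hχ⟩ := exists_chi K hidx
  exact ⟨χ, fun h => h2 ((hχ m).1 h)⟩

end

end Pool.Agent.H81.PB
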